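import Pool.Agent.MP_85210c_gt.Mg.Hedge

set_option autoImplicit false

namespace Pool.Agent.Results.MP_85210c_gt.VolumeProduct

open Pool.Agent.MP85210c

universe u v

/-- For `1 < p < 2`, every `n`-dimensional real normed space that embeds linearly isometrically
into an `L_p` space has volume product at least that of the unit ball of `l_p^n`. -/
theorem result :
    ∀ (p : ℝ) [Fact (1 ≤ ENNReal.ofReal p)], 1 < p → p < 2 →
    ∀ (α : Type u) [MeasurableSpace α] (μ : MeasureTheory.Measure α)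
      (X : Type v) [NormedAddCommGroup X] [NormedSpace ℝ X],
      Nonempty (X →ₗᵢ[ℝ] MeasureTheory.Lp ℝ (ENNReal.ofReal p) μ) →
    ∀ (n : ℕ) (T : X ≃ₗ[ℝ] EuclideanSpace ℝ (Fin n)),
      volumeProduct {x : EuclideanSpace ℝ (Fin n) | ∑ i, |x i| ^ p ≤ 1} ≤
        volumeProduct (T '' Metric.closedBall (0 : X) 1) := by
  intro p _ h1 h2 α _ μ X _ _ ⟨J⟩ n T
  exact main h1 h2 J T

end Pool.Agent.Results.MP_85210c_gt.VolumeProduct
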